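import Mathlib

/-!
# Kernels of symmetric polynomial maps and equivariant Groebner bases: definitions

The variables `y_ij` are indexed by pairs `(i, j)` of distinct natural numbers; the index set
`{1, 2, 3, ...}` of the literature is replaced by `{0, 1, 2, ...}`, which is the same up to the
order isomorphism `i ↦ i - 1`.
-/

set_option autoImplicit false

namespace Pool.Agent.H503R3.EGB

open MvPolynomial

/-- The index set of the variables `y_ij`, `i ≠ j`. -/
abbrev Idx : Type := {p : ℕ × ℕ // p.1 ≠ p.2}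

/-- The polynomial ring `R = ℂ[y_ij : i ≠ j]`. -/
abbrev R : Type := MvPolynomial Idx ℂ

/-- The algebra map `φ_f : R → ℂ[x_0, x_1, ...]`, `y_ij ↦ f(x_i, x_j)`, for `f ∈ ℂ[s, t]`. -/
noncomputable def phi (f : MvPolynomial (Fin 2) ℂ) : R →ₐ[ℂ] MvPolynomial ℕ ℂ :=
  aeval fun p : Idx => aeval ![(X p.1.1 : MvPolynomial ℕ ℂ), X p.1.2] f

/-- The kernel of `φ_f`. -/
noncomputable def kerPhi (f : MvPolynomial (Fin 2) ℂ) : Ideal R := RingHom.ker (phi f)

/-- The map `(i, j) ↦ (ρ i, ρ j)` on indices, for an injective map `ρ : ℕ → ℕ`. -/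
def mapIdx (ρ : ℕ → ℕ) (hρ : Function.Injective ρ) (p : Idx) : Idx :=
  ⟨(ρ p.1.1, ρ p.1.2), fun h => p.2 (hρ h)⟩

/-- The action `ρ y_ij = y_{ρ(i) ρ(j)}` on `R`. -/
noncomputable def act (ρ : ℕ → ℕ) (hρ : Function.Injective ρ) : R →ₐ[ℂ] R :=
  rename (mapIdx ρ hρ)

/-- The action of `ρ` on monomials (exponent vectors). -/
noncomputable def actMon (ρ : ℕ → ℕ) (hρ : Function.Injective ρ) (a : Idx →₀ ℕ) : Idx →₀ ℕ :=
  a.mapDomain (mapIdx ρ hρ)

/-- `I` is finitely generated up to symmetry: it is generated by the orbits, under the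
permutations of `ℕ` that fix all but finitely many elements, of finitely many elements of `I`. -/
def FGUpToSymmetry (I : Ideal R) : Prop :=
  ∃ F : Set R, F.Finite ∧ F ⊆ I ∧
    I = Ideal.span {h | ∃ σ : Equiv.Perm ℕ, {i | σ i ≠ i}.Finite ∧
      ∃ g ∈ F, h = act σ σ.injective g}

/-- A monomial order: a total well-order on the monomials, compatible with multiplication. -/
structure IsMonomialOrder (le : (Idx →₀ ℕ) → (Idx →₀ ℕ) → Prop) : Prop where
  total : ∀ a b, le a b ∨ le b a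
  antisymm : ∀ a b, le a b → le b a → a = b
  trans : ∀ a b c, le a b → le b c → le a c
  exists_min : ∀ S : Set (Idx →₀ ℕ), S.Nonempty → ∃ a ∈ S, ∀ b ∈ S, le a b
  mul : ∀ a b c, le a b → le (a + c) (b + c)

/-- The order respects the monoid of strictly increasing maps `ℕ → ℕ`. -/
def RespectsInc (le : (Idx →₀ ℕ) → (Idx →₀ ℕ) → Prop) : Prop :=
  ∀ (ρ : ℕ → ℕ) (hρ : StrictMono ρ) (a b : Idx →₀ ℕ), le a b →
    le (actMon ρ hρ.injective a) (actMon ρ hρ.injective b)

/-- `m` is the leading monomial of `g`. -/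
def IsLM (le : (Idx →₀ ℕ) → (Idx →₀ ℕ) → Prop) (g : R) (m : Idx →₀ ℕ) : Prop :=
  m ∈ g.support ∧ ∀ m' ∈ g.support, le m' m

/-- The initial ideal of `I`. -/
noncomputable def initialIdeal (le : (Idx →₀ ℕ) → (Idx →₀ ℕ) → Prop) (I : Ideal R) : Ideal R :=
  Ideal.span {h | ∃ g ∈ I, ∃ m, IsLM le g m ∧ h = monomial m 1}

/-- `G` is an equivariant Groebner basis of `I`: `G ⊆ I` and the leading monomials of the elements
`ρ g`, with `ρ` strictly increasing and `g ∈ G`, generate the initial ideal of `I`. -/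
def IsEGB (le : (Idx →₀ ℕ) → (Idx →₀ ℕ) → Prop) (I : Ideal R) (G : Set R) : Prop :=
  G ⊆ I ∧ Ideal.span {h | ∃ (ρ : ℕ → ℕ) (hρ : StrictMono ρ), ∃ g ∈ G, ∃ m,
    IsLM le (act ρ hρ.injective g) m ∧ h = monomial m 1} = initialIdeal le I

end Pool.Agent.H503R3.EGB
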