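import Pool.Agent.H503R3.EGB.Moves

/-!
# The kernel of `y_ij ↦ x_i x_j ^ 2` is finitely generated up to symmetry
-/

set_option autoImplicit false

namespace Pool.Agent.H503R3.EGB

open MvPolynomial

/-- the polynomial `s t ^ 2` -/
noncomputable def f0 : MvPolynomial (Fin 2) ℂ := X 0 * X 1 ^ 2

theorem phi_X (e : Idx) : phi f0 (X e) = X (src e) * X (tgt e) ^ 2 := by
  simp [phi, f0, src, tgt]

theorem phi_mon (s : Multiset Idx) :
    phi f0 (mon s) = ((W s).map (X : ℕ → MvPolynomial ℕ ℂ)).prod := by
  induction s using Multiset.induction_on with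
  | empty => simp [mon, W]
  | cons e s ih =>
    rw [mon_cons, map_mul, ih, phi_X]
    simp only [W, Multiset.map_cons, Multiset.map_add, Multiset.prod_add, Multiset.prod_cons]
    ring

theorem prod_X {σ : Type} [DecidableEq σ] (s : Multiset σ) :
    (s.map (X : σ → MvPolynomial σ ℂ)).prod = monomial (Multiset.toFinsupp s) 1 := by
  induction s using Multiset.induction_on with
  | empty => simp
  | cons e s ih =>
    rw [Multiset.map_cons, Multiset.prod_cons, ih, ← Multiset.singleton_add, map_add,
      Multiset.toFinsupp_singleton, X, monomial_mul, one_mul]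

theorem mon_toMultiset (m : Idx →₀ ℕ) : mon (Finsupp.toMultiset m) = monomial m 1 := by
  rw [mon, prod_X, Finsupp.toMultiset_toFinsupp]

theorem mon_eq (s : Multiset Idx) : mon s = monomial (Multiset.toFinsupp s) 1 := prod_X s

theorem ker_le (K : Ideal R) (hK : ∀ s t : Multiset Idx, Multiset.card s ≤ 4 → W s = W t →
    mon s - mon t ∈ K) : kerPhi f0 ≤ K := by
  classical
  let L : MvPolynomial ℕ ℂ →ₗ[ℂ] R ⧸ K := (basisMonomials ℕ ℂ).constr ℂ
    (fun w => if h : ∃ s, W s = Finsupp.toMultiset w then Ideal.Quotient.mk K (mon h.choose)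
      else 0)
  have hL : L ∘ₗ (phi f0).toLinearMap = (Ideal.Quotient.mkₐ ℂ K).toLinearMap := by
    refine (basisMonomials Idx ℂ).ext fun m => ?_
    rw [coe_basisMonomials]
    change L (phi f0 (monomial m 1)) = Ideal.Quotient.mk K (monomial m 1)
    rw [← mon_toMultiset, phi_mon, prod_X]
    set s := Finsupp.toMultiset m
    have h1 : L (monomial (Multiset.toFinsupp (W s)) 1) =
        if h : ∃ s', W s' = Finsupp.toMultiset (Multiset.toFinsupp (W s)) then
          Ideal.Quotient.mk K (mon h.choose) else 0 := by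
      have := (basisMonomials ℕ ℂ).constr_basis ℂ
        (fun w => if h : ∃ s, W s = Finsupp.toMultiset w then Ideal.Quotient.mk K (mon h.choose)
          else 0) (Multiset.toFinsupp (W s))
      rw [coe_basisMonomials] at this
      exact this
    rw [h1]
    have h2 : ∃ s', W s' = Finsupp.toMultiset (Multiset.toFinsupp (W s)) :=
      ⟨s, by rw [Multiset.toFinsupp_toMultiset]⟩
    rw [dif_pos h2]
    rw [Ideal.Quotient.mk_eq_mk_iff_sub_mem]
    refine connected K hK _ _ _ rfl ?_
    rw [h2.choose_spec, Multiset.toFinsupp_toMultiset]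
  intro p hp
  have hp' : phi f0 p = 0 := hp
  have h3 := congrArg (fun l => l p) hL
  simp only [LinearMap.comp_apply, AlgHom.toLinearMap_apply, hp', map_zero] at h3
  have h4 : Ideal.Quotient.mk K p = 0 := h3.symm
  exact Ideal.Quotient.eq_zero_iff_mem.mp h4

theorem exists_perm (N : ℕ) (V : Finset ℕ) : V.card ≤ N →
    ∃ σ : Equiv.Perm ℕ, {i | σ i ≠ i}.Finite ∧ ∀ v ∈ V, σ v < N := by
  classical
  induction V using Finset.induction_on with
  | empty => exact fun _ => ⟨1, by simp, by simp⟩
  | insert v V hv ih =>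
    intro hc
    rw [Finset.card_insert_of_notMem hv] at hc
    obtain ⟨σ, hσ, hσV⟩ := ih (by omega)
    by_cases h : σ v < N
    · exact ⟨σ, hσ, fun w hw => by
        rcases Finset.mem_insert.mp hw with rfl | hw
        · exact h
        · exact hσV w hw⟩
    · obtain ⟨w, hw, hw'⟩ : ∃ w ∈ Finset.range N, w ∉ V.image σ := by
        apply Finset.exists_mem_notMem_of_card_lt_card
        rw [Finset.card_range]
        exact lt_of_le_of_lt Finset.card_image_le (by omega)
      refine ⟨Equiv.swap (σ v) w * σ, ?_, ?_⟩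
      · refine Set.Finite.subset (hσ.union ((Set.finite_singleton v).union
          (Set.finite_singleton (σ.symm w)))) ?_
        intro i hi
        by_contra hcon
        simp only [Set.mem_union, Set.mem_ofPred_eq, Set.mem_singleton_iff, not_or, ne_eq,
          not_not] at hcon
        obtain ⟨h1, h2, h3⟩ := hcon
        apply hi
        rw [Equiv.Perm.mul_apply, h1]
        apply Equiv.swap_apply_of_ne_of_ne
        · intro h4
          apply h2
          apply σ.injective
          rw [h1, h4]
        · intro h4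
          apply h3
          rw [← h4, Equiv.eq_symm_apply, h1]
      · intro u hu
        rcases Finset.mem_insert.mp hu with rfl | hu
        · rw [Equiv.Perm.mul_apply, Equiv.swap_apply_left]
          exact Finset.mem_range.mp hw
        · rw [Equiv.Perm.mul_apply, Equiv.swap_apply_of_ne_of_ne]
          · exact hσV u hu
          · intro h4
            exact hv (σ.injective h4 ▸ hu)
          · intro h4
            exact hw' (Finset.mem_image.mpr ⟨u, hu, h4⟩)

/-- small multisets of arcs -/
def Small (s : Multiset Idx) : Prop := ∀ e ∈ s, src e < 12 ∧ tgt e < 12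

/-- the finite generating set -/
def F0 : Set R := {h | ∃ s t : Multiset Idx, Multiset.card s ≤ 4 ∧ W s = W t ∧ Small s ∧ Small t ∧
  h = mon s - mon t}

theorem finite_small : {s : Multiset Idx | Small s ∧ Multiset.card s ≤ 4}.Finite := by
  classical
  have hA : {e : Idx | src e < 12 ∧ tgt e < 12}.Finite := by
    refine Set.Finite.of_finite_image (f := Subtype.val) ?_ Subtype.val_injective.injOn
    refine Set.Finite.subset ((Set.finite_Iio 12).prod (Set.finite_Iio 12)) ?_
    rintro _ ⟨e, he, rfl⟩
    exact ⟨he.1, he.2⟩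
  refine Set.Finite.subset (Set.finite_Iic (4 • hA.toFinset.val)) ?_
  rintro s ⟨hs, hc⟩
  rw [Set.mem_Iic, Multiset.le_iff_count]
  intro e
  rw [Multiset.count_nsmul]
  by_cases he : e ∈ s
  · have h1 : e ∈ hA.toFinset.val := by
      rw [Finset.mem_val, Set.Finite.mem_toFinset]
      exact hs e he
    have h2 : 1 ≤ Multiset.count e hA.toFinset.val := Multiset.count_pos.mpr h1
    have h3 := Multiset.count_le_card e s
    omega
  · rw [Multiset.count_eq_zero.mpr he]
    exact Nat.zero_le _

theorem finite_F0 : F0.Finite := by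
  classical
  refine Set.Finite.subset ((finite_small.prod finite_small).image
    (fun p => mon p.1 - mon p.2)) ?_
  rintro h ⟨s, t, hc, hW, hs, ht, rfl⟩
  refine ⟨(s, t), ⟨⟨hs, hc⟩, ht, ?_⟩, rfl⟩
  rw [← card_eq_of_W hW]
  exact hc

theorem act_mon (ρ : ℕ → ℕ) (hρ : Function.Injective ρ) (s : Multiset Idx) :
    act ρ hρ (mon s) = mon (s.map (mapIdx ρ hρ)) := by
  rw [mon, map_multiset_prod, Multiset.map_map, mon, Multiset.map_map]
  congr 1
  refine Multiset.map_congr rfl fun e _ => ?_
  simp [act]

theorem W_map (ρ : ℕ → ℕ) (hρ : Function.Injective ρ) (s : Multiset Idx) :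
    W (s.map (mapIdx ρ hρ)) = (W s).map ρ := by
  simp only [W, Multiset.map_map, Multiset.map_add]
  rfl

theorem mon_sub_mem_ker {s t : Multiset Idx} (h : W s = W t) : mon s - mon t ∈ kerPhi f0 := by
  change phi f0 (mon s - mon t) = 0
  rw [map_sub, phi_mon, phi_mon, h, sub_self]

theorem phi_act (f : MvPolynomial (Fin 2) ℂ) (ρ : ℕ → ℕ) (hρ : Function.Injective ρ) (p : R) :
    phi f (act ρ hρ p) = rename ρ (phi f p) := by
  have : (phi f).comp (act ρ hρ) = (rename ρ).comp (phi f) := by
    refine MvPolynomial.algHom_ext fun e => ?_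
    simp only [AlgHom.comp_apply, act, rename_X, phi, aeval_X, mapIdx]
    rw [← AlgHom.comp_apply, ]
    have h2 : (rename ρ : MvPolynomial ℕ ℂ →ₐ[ℂ] MvPolynomial ℕ ℂ).comp
        (aeval ![(X e.1.1 : MvPolynomial ℕ ℂ), X e.1.2]) =
        aeval ![(X (ρ e.1.1) : MvPolynomial ℕ ℂ), X (ρ e.1.2)] := by
      refine MvPolynomial.algHom_ext fun i => ?_
      fin_cases i <;> simp
    rw [h2]
  exact congrArg (fun g => g p) this

theorem act_mem_ker (f : MvPolynomial (Fin 2) ℂ) (ρ : ℕ → ℕ) (hρ : Function.Injective ρ) {p : R}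
    (hp : p ∈ kerPhi f) : act ρ hρ p ∈ kerPhi f := by
  have hp' : phi f p = 0 := hp
  change phi f (act ρ hρ p) = 0
  rw [phi_act, hp', map_zero]

/-- `ker (y_ij ↦ x_i x_j ^ 2)` is finitely generated up to symmetry. -/
theorem fg : FGUpToSymmetry (kerPhi f0) := by
  classical
  refine ⟨F0, finite_F0, ?_, le_antisymm ?_ ?_⟩
  · rintro h ⟨s, t, _, hW, _, _, rfl⟩
    exact mon_sub_mem_ker hW
  · refine ker_le _ fun s t hs hW => ?_
    obtain ⟨σ, hσ, hσV⟩ := exists_perm 12 (W s).toFinset (by
      refine le_trans (Multiset.toFinset_card_le _) ?_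
      rw [card_W]; omega)
    refine Ideal.subset_span ⟨σ⁻¹, ?_, mon (s.map (mapIdx σ σ.injective)) -
      mon (t.map (mapIdx σ σ.injective)), ⟨_, _, ?_, ?_, ?_, ?_, rfl⟩, ?_⟩
    · refine Set.Finite.subset hσ ?_
      intro i hi hcon
      apply hi
      have : σ i = i := hcon
      rw [Equiv.Perm.inv_eq_iff_eq, this]
    · rwa [Multiset.card_map]
    · rw [W_map, W_map, hW]
    · intro e he
      obtain ⟨e', he', rfl⟩ := Multiset.mem_map.mp he
      constructor
      · refine hσV _ ?_
        rw [Multiset.mem_toFinset, W]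
        exact Multiset.mem_add.mpr (Or.inl (Multiset.mem_map_of_mem _ he'))
      · refine hσV _ ?_
        rw [Multiset.mem_toFinset, W]
        exact Multiset.mem_add.mpr (Or.inr (Multiset.mem_add.mpr
          (Or.inl (Multiset.mem_map_of_mem _ he'))))
    · intro e he
      obtain ⟨e', he', rfl⟩ := Multiset.mem_map.mp he
      rw [hW] at hσV
      constructor
      · refine hσV _ ?_
        rw [Multiset.mem_toFinset, W]
        exact Multiset.mem_add.mpr (Or.inl (Multiset.mem_map_of_mem _ he'))
      · refine hσV _ ?_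
        rw [Multiset.mem_toFinset, W]
        exact Multiset.mem_add.mpr (Or.inr (Multiset.mem_add.mpr
          (Or.inl (Multiset.mem_map_of_mem _ he'))))
    · have key : ∀ u : Multiset Idx,
          act (σ⁻¹ : Equiv.Perm ℕ) (Equiv.injective _) (mon (u.map (mapIdx σ σ.injective))) =
            mon u := by
        intro u
        rw [act_mon, Multiset.map_map]
        congr 1
        conv_rhs => rw [← Multiset.map_id u]
        refine Multiset.map_congr rfl fun e _ => ?_
        apply Subtype.ext
        simp [mapIdx]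
      rw [map_sub, key, key]
  · rw [Ideal.span_le]
    rintro h ⟨σ, _, g, ⟨s, t, _, hW, _, _, rfl⟩, rfl⟩
    exact act_mem_ker f0 _ _ (mon_sub_mem_ker hW)

end Pool.Agent.H503R3.EGB
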