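import Pool.Agent.H503R3.EGB.Defs

/-!
# Loop-free directed multigraphs with prescribed degrees, and moves between them
-/

set_option autoImplicit false

namespace Pool.Agent.H503R3.EGB

/-- source of an arc -/
def src (e : Idx) : ℕ := e.1.1
/-- target of an arc -/
def tgt (e : Idx) : ℕ := e.1.2

/-- the exponent (as a multiset) of the image of a monomial under `φ_f`, `f = s t ^ 2`. -/
def W (s : Multiset Idx) : Multiset ℕ := s.map src + (s.map tgt + s.map tgt)

theorem W_add (s t : Multiset Idx) : W (s + t) = W s + W t := by
  simp only [W, Multiset.map_add]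
  ac_rfl

theorem card_W (s : Multiset Idx) : Multiset.card (W s) = 3 * Multiset.card s := by
  simp [W]; ring

theorem card_eq_of_W {s t : Multiset Idx} (h : W s = W t) : Multiset.card s = Multiset.card t := by
  have := congrArg Multiset.card h
  rw [card_W, card_W] at this
  omega

/-- the number of arcs touching `v` -/
theorem touch_eq (v : ℕ) (s : Multiset Idx) :
    (s.map src).count v + (s.map tgt).count v = s.countP (fun e => src e = v ∨ tgt e = v) := by
  induction s using Multiset.induction_on with
  | empty => simp
  | cons e s ih =>
    rw [Multiset.map_cons, Multiset.map_cons, Multiset.count_cons, Multiset.count_cons,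
      Multiset.countP_cons, ← ih]
    have hne : src e ≠ tgt e := e.2
    by_cases h1 : v = src e
    · have h2 : v ≠ tgt e := fun h => hne (h1 ▸ h)
      have h3 : src e = v ∨ tgt e = v := Or.inl h1.symm
      rw [if_pos h1, if_neg h2, if_pos h3]
      omega
    · by_cases h2 : v = tgt e
      · have h3 : src e = v ∨ tgt e = v := Or.inr h2.symm
        rw [if_neg h1, if_pos h2, if_pos h3]
        omega
      · have h3 : ¬ (src e = v ∨ tgt e = v) := by
          rintro (h | h)
          · exact h1 h.symm
          · exact h2 h.symm
        rw [if_neg h1, if_neg h2, if_neg h3]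
        omega

theorem touch_le (v : ℕ) (s : Multiset Idx) :
    (s.map src).count v + (s.map tgt).count v ≤ Multiset.card s := by
  rw [touch_eq]; exact Multiset.countP_le_card _ _

theorem touch_lt_of_mem {v : ℕ} {s : Multiset Idx} {e : Idx} (he : e ∈ s) (h1 : src e ≠ v)
    (h2 : tgt e ≠ v) : (s.map src).count v + (s.map tgt).count v < Multiset.card s := by
  rw [touch_eq]
  refine lt_of_le_of_ne (Multiset.countP_le_card _ _) fun h => ?_
  rw [Multiset.countP_eq_card] at h
  rcases h e he with h | h
  · exact h1 h
  · exact h2 h

theorem exists_not_touch {v : ℕ} {s : Multiset Idx}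
    (h : (s.map src).count v + (s.map tgt).count v < Multiset.card s) :
    ∃ e ∈ s, src e ≠ v ∧ tgt e ≠ v := by
  by_contra hc
  push Not at hc
  rw [touch_eq] at h
  refine absurd h (not_lt.mpr (le_of_eq ?_))
  symm
  rw [Multiset.countP_eq_card]
  intro e he
  by_cases h1 : src e = v
  · exact Or.inl h1
  · exact Or.inr (hc e he h1)

/-- A loop-free directed multigraph with prescribed out- and in-degrees exists. -/
theorem realize (S T : Multiset ℕ) (hcard : Multiset.card S = Multiset.card T)
    (h : ∀ v, S.count v + T.count v ≤ Multiset.card S) :
    ∃ s : Multiset Idx, s.map src = S ∧ s.map tgt = T := by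
  classical
  obtain ⟨n, hn⟩ : ∃ n, Multiset.card S = n := ⟨_, rfl⟩
  have hnT : Multiset.card T = n := hcard ▸ hn
  -- write `S` and `T` as images of `Fin n`
  have key : ∀ U : Multiset ℕ, Multiset.card U = n →
      ∃ f : Fin n → ℕ, (Finset.univ : Finset (Fin n)).val.map f = U := by
    intro U hU
    induction U using Quotient.inductionOn with
    | h l =>
      have hl : l.length = n := by simpa using hU
      subst hl
      refine ⟨l.get, ?_⟩
      simp [Fin.univ_val_map]
  obtain ⟨f, hf⟩ := key S hn
  obtain ⟨g, hg⟩ := key T hnT
  have hall : ∃ σ : Fin n → Fin n, Function.Injective σ ∧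
      ∀ i, σ i ∈ Finset.univ.filter (fun j => g j ≠ f i) := by
    rw [← Finset.all_card_le_biUnion_card_iff_exists_injective
      (fun i : Fin n => Finset.univ.filter (fun j : Fin n => g j ≠ f i))]
    intro A
    rcases A.eq_empty_or_nonempty with rfl | ⟨a, ha⟩
    · simp
    by_cases hA : ∀ b ∈ A, f b = f a
    · have h1 : A.card ≤ S.count (f a) := by
        rw [← hf, Multiset.count_map]
        rw [← Finset.filter_val, Finset.card_val]
        refine Finset.card_le_card fun b hb => ?_
        simp [hA b hb]
      have h2 : T.count (f a) + (Finset.univ.filter (fun j : Fin n => g j ≠ f a)).card = n := by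
        rw [← hg, Multiset.count_map, ← Finset.filter_val, Finset.card_val]
        have := Finset.card_filter_add_card_filter_not (s := (Finset.univ : Finset (Fin n)))
          (fun j => f a = g j)
        simp only [Finset.card_univ, Fintype.card_fin] at this
        have h5 : (Finset.univ.filter (fun j : Fin n => g j ≠ f a)) =
            (Finset.univ.filter (fun j : Fin n => ¬ f a = g j)) := by
          ext j
          simp [eq_comm]
        rw [h5]
        exact this
      have h3 := h (f a)
      rw [hn] at h3
      have h4 : (Finset.univ.filter (fun j : Fin n => g j ≠ f a)).card ≤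
          (A.biUnion fun i => Finset.univ.filter (fun j : Fin n => g j ≠ f i)).card := by
        refine Finset.card_le_card ?_
        exact Finset.subset_biUnion_of_mem
          (fun i : Fin n => Finset.univ.filter (fun j : Fin n => g j ≠ f i)) ha
      omega
    · push Not at hA
      obtain ⟨b, hb, hab⟩ := hA
      have : (A.biUnion fun i => Finset.univ.filter (fun j : Fin n => g j ≠ f i)) =
          Finset.univ := by
        ext j
        simp only [Finset.mem_biUnion, Finset.mem_filter, Finset.mem_univ, true_and, iff_true]
        by_cases hj : g j = f a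
        · exact ⟨b, hb, fun h => hab (h.symm.trans hj)⟩
        · exact ⟨a, ha, hj⟩
      rw [this]
      exact Finset.card_le_univ A
  obtain ⟨σ, hσ, hσ'⟩ := hall
  have hne : ∀ i, f i ≠ g (σ i) := by
    intro i
    have := hσ' i
    simp only [Finset.mem_filter, Finset.mem_univ, true_and] at this
    exact fun h => this h.symm
  refine ⟨(Finset.univ : Finset (Fin n)).val.map fun i => (⟨(f i, g (σ i)), hne i⟩ : Idx), ?_, ?_⟩
  · rw [Multiset.map_map]
    exact hf
  · rw [Multiset.map_map]
    have hbij : Function.Bijective σ := Finite.injective_iff_bijective.mp hσ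
    have : (Finset.univ : Finset (Fin n)).val.map (g ∘ (Equiv.ofBijective σ hbij)) = T := by
      rw [← Multiset.map_map, ← hg]
      congr 1
      exact Multiset.map_univ_val_equiv _
    exact this

end Pool.Agent.H503R3.EGB
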