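import Pool.Agent.H503R3.EGB.Order

/-!
# Monomials all of whose proper divisors are standard
-/

set_option autoImplicit false

namespace Pool.Agent.H503R3.EGB

open OrderDual

/-- the arc `k + 2 → k` -/
def dn (k : ℕ) : Idx := ⟨(k + 2, k), by simp⟩

/-- the arc `1 → j + 2` -/
def up (j : ℕ) : Idx := ⟨(1, j + 2), by simp⟩

/-- the arc `k + 1 → k` -/
def st (k : ℕ) : Idx := ⟨(k + 1, k), by simp⟩

/-- the arcs `k + 2 → k`, for `k ∈ A` -/
def DN (A : Finset ℕ) : Multiset Idx := A.val.map dn

/-- the big monomial -/
def big (j : ℕ) : Multiset Idx := up j ::ₘ DN (Finset.range (j + 2))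

/-- the competitor -/
def small (j : ℕ) : Multiset Idx := (Finset.range (j + 3)).val.map st

theorem mem_DN {A : Finset ℕ} {e : Idx} : e ∈ DN A ↔ ∃ k ∈ A, dn k = e := by
  simp [DN, Multiset.mem_map]

theorem dn_injective : Function.Injective dn := by
  intro a b h
  have := congrArg tgt h
  exact this

/-- equal image and squarefree out-degrees imply equal degrees -/
theorem degrees_eq {s s' : Multiset Idx} (hW : W s' = W s) (hs : (s.map src).Nodup) :
    s'.map src = s.map src ∧ s'.map tgt = s.map tgt := by
  have h1 : s'.map tgt = s.map tgt := by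
    refine Multiset.eq_of_le_of_card_le ?_ ?_
    · rw [Multiset.le_iff_count]
      intro v
      have h2 := congrArg (Multiset.count v) hW
      simp only [W, Multiset.count_add] at h2
      have h3 := Multiset.nodup_iff_count_le_one.mp hs v
      omega
    · rw [Multiset.card_map, Multiset.card_map, card_eq_of_W hW]
  exact ⟨src_eq_of hW h1, h1⟩

theorem eq_of_tgt_eq {s : Multiset Idx} (h : (s.map tgt).Nodup) {e e' : Idx} (he : e ∈ s)
    (he' : e' ∈ s) (heq : tgt e = tgt e') : e = e' :=
  Multiset.inj_on_of_nodup_map h e he e' he' heq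

/-- The comparison at the last level. -/
theorem v3_le {s s' : Multiset Idx} (hsrc : s'.map src = s.map src)
    (htgt : s'.map tgt = s.map tgt) (hS : (s.map src).Nodup) (hT : (s.map tgt).Nodup)
    (ups : Multiset Idx) (A : Finset ℕ) (hs : s = ups + DN A)
    (hup : ∀ e ∈ ups, e ∈ s' ∧ src e = 1)
    (hdown : ∀ e ∈ s', e ∉ ups → tgt e < src e) : toLex (v3 s) ≤ toLex (v3 s') := by
  classical
  have hT' : (s'.map tgt).Nodup := htgt ▸ hT
  have hS' : (s'.map src).Nodup := hsrc ▸ hS
  have hnd : s.Nodup := Multiset.Nodup.of_map _ hS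
  have hnd' : s'.Nodup := Multiset.Nodup.of_map _ hS'
  by_contra hcon
  rw [not_le, Finsupp.Lex.lt_iff] at hcon
  obtain ⟨i, hi1, hi2⟩ := hcon
  simp only [ofLex_toLex, v3, Multiset.toFinsupp_apply] at hi1 hi2
  have hcount : ∀ (w : Multiset Idx) (a : Idx),
      (w.map fun e => toDual (key e)).count (toDual (key a)) = w.count a := by
    intro w a
    exact Multiset.count_map_eq_count' (fun e => toDual (key e)) w
      (fun a b hab => key_injective (toDual_inj.mp hab)) a
  obtain ⟨e, he, rfl⟩ : ∃ a ∈ s, toDual (key a) = i := by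
    have : 0 < (s.map fun e => toDual (key e)).count i := by omega
    simpa using Multiset.mem_map.mp (Multiset.count_pos.mp this)
  rw [hcount, hcount] at hi2
  have hes' : e ∉ s' := by
    intro h
    have h1 := Multiset.count_eq_one_of_mem hnd he
    have h2 := Multiset.count_eq_one_of_mem hnd' h
    omega
  have hlarge : ∀ e', key e < key e' → (e' ∈ s ↔ e' ∈ s') := by
    intro e' hlt
    have h1 := hi1 (toDual (key e')) (toDual_lt_toDual.mpr hlt)
    rw [hcount, hcount] at h1
    rw [← Multiset.count_pos, ← Multiset.count_pos, h1]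
  obtain ⟨k, hk, rfl⟩ : ∃ k ∈ A, dn k = e := by
    rw [hs] at he
    rcases Multiset.mem_add.mp he with h | h
    · exact absurd (hup e h).1 hes'
    · exact mem_DN.mp h
  have hk2 : k + 2 ∈ s'.map src := by
    rw [hsrc]
    exact Multiset.mem_map_of_mem src he
  obtain ⟨e1, he1, he1'⟩ := Multiset.mem_map.mp hk2
  have hne1 : e1 ≠ dn k := fun h => hes' (h ▸ he1)
  have he1up : e1 ∉ ups := by
    intro h
    have := (hup e1 h).2
    omega
  have hlt1 := hdown e1 he1 he1up
  have htk : tgt e1 ≠ k := by
    intro h
    apply hne1
    exact Subtype.ext (Prod.ext he1' h)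
  have hcases : tgt e1 < k ∨ tgt e1 = k + 1 := by omega
  have mem_s : ∀ e' ∈ s, e' ∈ ups ∨ ∃ k' ∈ A, dn k' = e' := by
    intro e' he'
    rw [hs] at he'
    rcases Multiset.mem_add.mp he' with h | h
    · exact Or.inl h
    · exact Or.inr (mem_DN.mp h)
  rcases hcases with h | h
  · have hkey : key (dn k) < key e1 := by
      have h1 : src (dn k) = k + 2 := rfl
      have h2 : tgt (dn k) = k := rfl
      have h3 : max (src e1) (tgt e1) = k + 2 := by omega
      have h4 : min (src e1) (tgt e1) = tgt e1 := by omega
      have h5 : max (k + 2) k = k + 2 := by omega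
      have h6 : min (k + 2) k = k := by omega
      rw [key, key, Prod.Lex.lt_iff]
      right
      simp only [ofLex_toLex, h1, h2, h3, h4, h5, h6, Prod.Lex.lt_iff, true_and]
      left
      omega
    have hmem := (hlarge e1 hkey).mpr he1
    rcases mem_s e1 hmem with h' | ⟨k', hk', rfl⟩
    · exact he1up h'
    · have h1 : k' + 2 = k + 2 := he1'
      have h2 : k' < k := h
      omega
  · have hmem : k + 1 ∈ s.map tgt := by
      rw [← htgt, ← h]
      exact Multiset.mem_map_of_mem tgt he1
    obtain ⟨e2, he2, he2'⟩ := Multiset.mem_map.mp hmem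
    have he2s' : e2 ∈ s' := by
      rcases mem_s e2 he2 with h' | ⟨k', hk', rfl⟩
      · exact (hup e2 h').1
      · refine (hlarge _ ?_).mp he2
        have h1 : k' = k + 1 := he2'
        subst h1
        rw [key, key, Prod.Lex.lt_iff]
        left
        simp only [ofLex_toLex]
        have h1 : src (dn k) = k + 2 := rfl
        have h2 : tgt (dn k) = k := rfl
        have h3 : src (dn (k + 1)) = k + 1 + 2 := rfl
        have h4 : tgt (dn (k + 1)) = k + 1 := rfl
        rw [h1, h2, h3, h4]
        omega
    have heq := eq_of_tgt_eq hT' he1 he2s' (by rw [h, he2'])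
    subst heq
    rcases mem_s e1 he2 with h' | ⟨k', hk', rfl⟩
    · exact he1up h'
    · have h1 : k' + 2 = k + 2 := he1'
      have h2 : k' = k + 1 := he2'
      omega

/-- Case 1: only descending arcs. -/
theorem min_case_one (A : Finset ℕ) {s' : Multiset Idx} (hW : W s' = W (DN A)) :
    syn (DN A) ≤ syn s' := by
  classical
  have hS : ((DN A).map src).Nodup := by
    rw [DN, Multiset.map_map]
    refine Multiset.Nodup.map (fun a b h => ?_) A.nodup
    have h' : a + 2 = b + 2 := h
    omega
  have hT : ((DN A).map tgt).Nodup := by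
    rw [DN, Multiset.map_map]
    refine Multiset.Nodup.map (fun a b h => ?_) A.nodup
    exact h
  obtain ⟨h1, h2⟩ := degrees_eq hW hS
  have hv1 : v1 (DN A) = 0 := by
    rw [v1, Multiset.countP_eq_zero]
    intro e he
    obtain ⟨k, _, rfl⟩ := mem_DN.mp he
    have h3 : src (dn k) = k + 2 := rfl
    have h4 : tgt (dn k) = k := rfl
    omega
  have hlft : ∀ t : Multiset Idx, v1 t = 0 → t.map (fun e => toDual (lft e)) =
      (t.map tgt).map toDual := by
    intro t ht
    rw [Multiset.map_map]
    refine Multiset.map_congr rfl fun e he => ?_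
    rw [v1, Multiset.countP_eq_zero] at ht
    have := ht e he
    simp only [Function.comp_apply, lft]
    congr 1
    omega
  rw [syn, syn, Prod.Lex.le_iff]
  simp only [ofLex_toLex]
  rcases Nat.eq_zero_or_pos (v1 s') with h0 | h0
  · right
    refine ⟨by rw [hv1, h0], ?_⟩
    rw [Prod.Lex.le_iff]
    simp only [ofLex_toLex]
    right
    refine ⟨?_, ?_⟩
    · rw [toLex_inj, v2, v2, hlft _ hv1, hlft _ h0, h2]
    · refine v3_le h1 h2 hS hT 0 A (by simp) (by simp) ?_
      intro e he _
      rw [v1, Multiset.countP_eq_zero] at h0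
      have h3 := h0 e he
      have h4 : src e ≠ tgt e := e.2
      omega
  · left
    rw [hv1]
    exact h0

/-- Case 2: one ascending arc. -/
theorem min_case_two (j i : ℕ) (hi : i < j + 2) {s' : Multiset Idx}
    (hW : W s' = W (up j ::ₘ DN ((Finset.range (j + 2)).erase i))) :
    syn (up j ::ₘ DN ((Finset.range (j + 2)).erase i)) ≤ syn s' := by
  classical
  set A := (Finset.range (j + 2)).erase i with hA
  set s := up j ::ₘ DN A with hs
  have hmemA : ∀ k, k ∈ A ↔ k ≠ i ∧ k < j + 2 := by
    intro k; rw [hA, Finset.mem_erase, Finset.mem_range]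
  have hsrcup : src (up j) = 1 := rfl
  have htgtup : tgt (up j) = j + 2 := rfl
  have hS : (s.map src).Nodup := by
    rw [hs, Multiset.map_cons, DN, Multiset.map_map, Multiset.nodup_cons]
    refine ⟨?_, Multiset.Nodup.map (fun a b h => ?_) A.nodup⟩
    · intro h
      obtain ⟨k, _, hk⟩ := Multiset.mem_map.mp h
      have h' : k + 2 = 1 := hk
      omega
    · have h' : a + 2 = b + 2 := h
      omega
  have hT : (s.map tgt).Nodup := by
    rw [hs, Multiset.map_cons, DN, Multiset.map_map, Multiset.nodup_cons]
    refine ⟨?_, Multiset.Nodup.map (fun a b h => ?_) A.nodup⟩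
    · intro h
      obtain ⟨k, hk', hk⟩ := Multiset.mem_map.mp h
      have h' : k = j + 2 := hk
      have := (hmemA k).mp hk'
      omega
    · exact h
  obtain ⟨h1, h2⟩ := degrees_eq hW hS
  have hS' : (s'.map src).Nodup := h1 ▸ hS
  have hT' : (s'.map tgt).Nodup := h2 ▸ hT
  have hsrcmem : ∀ v, v ∈ s.map src → 1 ≤ v := by
    intro v hv
    rw [hs, Multiset.map_cons, Multiset.mem_cons] at hv
    rcases hv with hv | hv
    · omega
    · obtain ⟨e, he, rfl⟩ := Multiset.mem_map.mp hv
      obtain ⟨k, _, rfl⟩ := mem_DN.mp he
      have : src (dn k) = k + 2 := rfl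
      omega
  have htgtmem : ∀ v, v ∈ s.map tgt → v ≤ j + 2 ∧ v ≠ i := by
    intro v hv
    rw [hs, Multiset.map_cons, Multiset.mem_cons] at hv
    rcases hv with hv | hv
    · omega
    · obtain ⟨e, he, rfl⟩ := Multiset.mem_map.mp hv
      obtain ⟨k, hk, rfl⟩ := mem_DN.mp he
      have h3 : tgt (dn k) = k := rfl
      have := (hmemA k).mp hk
      omega
  have hv1 : v1 s = 1 := by
    rw [hs, v1, Multiset.countP_cons_of_pos]
    · have : Multiset.countP (fun e => src e < tgt e) (DN A) = 0 := by
        rw [Multiset.countP_eq_zero]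
        intro e he
        obtain ⟨k, _, rfl⟩ := mem_DN.mp he
        have h3 : src (dn k) = k + 2 := rfl
        have h4 : tgt (dn k) = k := rfl
        omega
      rw [this]
    · rw [hsrcup, htgtup]; omega
  -- there is an ascending arc in `s'`
  have hpos : v1 s' ≠ 0 := by
    intro h0
    rw [v1, Multiset.countP_eq_zero] at h0
    -- sources at most `i + 1` go to targets less than `i`
    set P := s'.filter (fun e => src e < i + 2) with hP
    have hc1 : Multiset.card P ≤ i := by
      have hnd : (P.map tgt).Nodup :=
        Multiset.nodup_of_le (Multiset.map_le_map (Multiset.filter_le _ _)) hT'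
      rw [← Multiset.card_map tgt P, ← Multiset.toFinset_card_of_nodup hnd]
      refine le_trans (Finset.card_le_card (t := Finset.range i) ?_) (by simp)
      intro v hv
      rw [Multiset.mem_toFinset] at hv
      obtain ⟨e, he, rfl⟩ := Multiset.mem_map.mp hv
      rw [hP, Multiset.mem_filter] at he
      have h3 := h0 e he.1
      have h4 : src e ≠ tgt e := e.2
      have h5 := htgtmem (tgt e) (by rw [← h2]; exact Multiset.mem_map_of_mem tgt he.1)
      rw [Finset.mem_range]
      omega
    have hc2 : i + 1 ≤ Multiset.card P := by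
      have h3 : Multiset.card P = Multiset.card (s.filter (fun e => src e < i + 2)) := by
        have h4 := congrArg (fun t => Multiset.card (Multiset.filter (fun v => v < i + 2) t)) h1
        simp only [Multiset.filter_map, Multiset.card_map] at h4
        exact h4
      rw [h3]
      have h5 : up j ::ₘ DN (Finset.range i) ≤ s.filter (fun e => src e < i + 2) := by
        rw [Multiset.le_filter]
        constructor
        · rw [hs]
          refine Multiset.cons_le_cons _ (Multiset.map_le_map (Finset.val_le_iff.mpr ?_))
          intro k hk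
          rw [hmemA]
          rw [Finset.mem_range] at hk
          omega
        · intro e he
          rcases Multiset.mem_cons.mp he with rfl | he
          · rw [hsrcup]; omega
          · obtain ⟨k, hk, rfl⟩ := mem_DN.mp he
            rw [Finset.mem_range] at hk
            have : src (dn k) = k + 2 := rfl
            omega
      have h6 := Multiset.card_le_card h5
      rw [Multiset.card_cons, DN, Multiset.card_map, Finset.card_val, Finset.card_range] at h6
      exact h6
    omega
  rw [syn, syn, Prod.Lex.le_iff]
  simp only [ofLex_toLex]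
  rw [hv1]
  rcases Nat.lt_or_ge 1 (v1 s') with h0 | h0
  · exact Or.inl h0
  right
  have hv1' : v1 s' = 1 := by omega
  refine ⟨hv1'.symm, ?_⟩
  -- the unique ascending arc of `s'`
  obtain ⟨e0, he0, hasc⟩ : ∃ e0 ∈ s', src e0 < tgt e0 := by
    by_contra hcon
    push Not at hcon
    apply hpos
    rw [v1, Multiset.countP_eq_zero]
    intro e he
    exact not_lt.mpr (hcon e he)
  obtain ⟨q, hq⟩ := Multiset.exists_cons_of_mem he0
  have hq0 : v1 q = 0 := by
    rw [v1, hq, Multiset.countP_cons_of_pos (p := fun e => src e < tgt e) _ hasc] at hv1'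
    rw [v1]; omega
  have hqdesc : ∀ e ∈ q, tgt e < src e := by
    intro e he
    rw [v1, Multiset.countP_eq_zero] at hq0
    have h3 := hq0 e he
    have h4 : src e ≠ tgt e := e.2
    omega
  have hlft : ∀ t : Multiset Idx, (∀ e ∈ t, tgt e < src e) → t.map (fun e => toDual (lft e)) =
      (t.map tgt).map toDual := by
    intro t ht
    rw [Multiset.map_map]
    refine Multiset.map_congr rfl fun e he => ?_
    have := ht e he
    simp only [Function.comp_apply, lft]
    congr 1
    omega
  have hcnt : ∀ (t : Multiset ℕ) (v : ℕ), (t.map toDual).count (toDual v) = t.count v := by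
    intro t v
    exact Multiset.count_map_eq_count' toDual t toDual.injective v
  have hs0 : 1 ≤ src e0 := hsrcmem _ (by rw [← h1]; exact Multiset.mem_map_of_mem src he0)
  have ht0 := htgtmem (tgt e0) (by rw [← h2]; exact Multiset.mem_map_of_mem tgt he0)
  -- coefficients of `v2`
  have hw1 : ∀ v, v2 s' (toDual v) + (if v = tgt e0 then 1 else 0) =
      (s.map tgt).count v + (if v = src e0 then 1 else 0) := by
    intro v
    rw [← h2, v2, Multiset.toFinsupp_apply, hq, Multiset.map_cons, hlft q hqdesc,
      Multiset.count_cons, hcnt, Multiset.map_cons, Multiset.count_cons]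
    have h3 : lft e0 = src e0 := by rw [lft]; omega
    rw [h3]
    simp only [toDual_inj]
    omega
  have hw2 : ∀ v, v2 s (toDual v) + (if v = j + 2 then 1 else 0) =
      (s.map tgt).count v + (if v = 1 then 1 else 0) := by
    intro v
    rw [v2, Multiset.toFinsupp_apply, hs, Multiset.map_cons, hlft (DN A) ?_,
      Multiset.count_cons, hcnt, Multiset.map_cons, Multiset.count_cons]
    · have h3 : lft (up j) = 1 := by rw [lft, hsrcup, htgtup]; omega
      rw [h3, htgtup]
      simp only [toDual_inj]
      omega
    · intro e he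
      obtain ⟨k, _, rfl⟩ := mem_DN.mp he
      have h3 : src (dn k) = k + 2 := rfl
      have h4 : tgt (dn k) = k := rfl
      omega
  rw [Prod.Lex.le_iff]
  simp only [ofLex_toLex]
  by_cases hj : tgt e0 = j + 2
  · by_cases hsr : src e0 = 1
    · -- same ascending arc
      have he0up : e0 = up j := Subtype.ext (Prod.ext hsr hj)
      right
      refine ⟨?_, ?_⟩
      · rw [toLex_inj]
        ext v
        have h3 := hw1 (ofDual v)
        have h4 := hw2 (ofDual v)
        rw [toDual_ofDual] at h3 h4
        rw [hj, hsr] at h3
        omega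
      · refine v3_le h1 h2 hS hT {up j} A (by rw [hs, Multiset.singleton_add]) ?_ ?_
        · intro e he
          rw [Multiset.mem_singleton] at he
          subst he
          exact ⟨he0up ▸ he0, rfl⟩
        · intro e he hne
          rw [Multiset.mem_singleton] at hne
          rw [hq] at he
          rcases Multiset.mem_cons.mp he with h | h
          · exact absurd (h.trans he0up) hne
          · exact hqdesc e h
    · left
      rw [Finsupp.Lex.lt_iff]
      refine ⟨toDual (src e0), ?_, ?_⟩
      · intro v hv
        have hv' : src e0 < ofDual v := hv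
        have h3 := hw1 (ofDual v)
        have h4 := hw2 (ofDual v)
        rw [toDual_ofDual] at h3 h4
        simp only [ofLex_toLex]
        rw [hj, if_neg (by omega : ofDual v ≠ src e0)] at h3
        rw [if_neg (by omega : ofDual v ≠ 1)] at h4
        omega
      · have h3 := hw1 (src e0)
        have h4 := hw2 (src e0)
        simp only [ofLex_toLex]
        rw [if_neg (by omega), if_pos rfl] at h3
        rw [if_neg (by omega), if_neg hsr] at h4
        omega
  · left
    rw [Finsupp.Lex.lt_iff]
    have hmemT : j + 2 ∈ s.map tgt := by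
      rw [hs, Multiset.map_cons, Multiset.mem_cons]
      exact Or.inl rfl
    have hone := Multiset.count_eq_one_of_mem hT hmemT
    refine ⟨toDual (j + 2), ?_, ?_⟩
    · intro v hv
      have hv' : j + 2 < ofDual v := hv
      have h3 := hw1 (ofDual v)
      have h4 := hw2 (ofDual v)
      rw [toDual_ofDual] at h3 h4
      simp only [ofLex_toLex]
      rw [if_neg (by omega), if_neg (by omega)] at h3
      rw [if_neg (by omega), if_neg (by omega)] at h4
      omega
    · have h3 := hw1 (j + 2)
      have h4 := hw2 (j + 2)
      simp only [ofLex_toLex]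
      rw [if_neg (by omega), if_neg (by omega)] at h3
      rw [if_pos rfl, if_neg (by omega)] at h4
      omega

end Pool.Agent.H503R3.EGB
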