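import Pool.Agent.H503R3.EGB.Graph

/-!
# Monomials with the same image are connected by moves of degree at most four
-/

set_option autoImplicit false

namespace Pool.Agent.H503R3.EGB

open MvPolynomial

/-- the monomial of a multiset of arcs -/
noncomputable def mon (s : Multiset Idx) : R := (s.map X).prod

theorem mon_add (s t : Multiset Idx) : mon (s + t) = mon s * mon t := by
  simp [mon]

theorem mon_cons (e : Idx) (s : Multiset Idx) : mon (e ::ₘ s) = X e * mon s := by
  simp [mon]

section

variable (K : Ideal R) (hK : ∀ s t : Multiset Idx, Multiset.card s ≤ 4 → W s = W t →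
  mon s - mon t ∈ K)

include hK in
theorem move {n n' q : Multiset Idx} (hn : Multiset.card n ≤ 4) (h : W n = W n') :
    mon (n + q) - mon (n' + q) ∈ K := by
  rw [mon_add, mon_add, ← sub_mul]
  exact K.mul_mem_right _ (hK n n' hn h)

theorem rel_trans {s t u : Multiset Idx} (h1 : mon s - mon t ∈ K) (h2 : mon t - mon u ∈ K) :
    mon s - mon u ∈ K := by
  have := K.add_mem h1 h2
  simpa using this

theorem rel_symm {s t : Multiset Idx} (h1 : mon s - mon t ∈ K) : mon t - mon s ∈ K := by
  have := K.neg_mem h1
  simpa using this

theorem rel_cons {s t : Multiset Idx} (e : Idx) (h1 : mon s - mon t ∈ K) :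
    mon (e ::ₘ s) - mon (e ::ₘ t) ∈ K := by
  rw [mon_cons, mon_cons, ← mul_sub]
  exact K.mul_mem_left _ h1

/-- choose a small piece of `s` with the required properties -/
theorem choose_piece {s : Multiset Idx} {u v : ℕ} (hu : u ∈ s.map tgt)
    (hv : 2 ≤ (s.map src).count v) (ht : ∃ e ∈ s, src e ≠ u ∧ tgt e ≠ u) :
    ∃ n, n ≤ s ∧ Multiset.card n ≤ 4 ∧ u ∈ n.map tgt ∧ 2 ≤ (n.map src).count v ∧
      ∃ e ∈ n, src e ≠ u ∧ tgt e ≠ u := by
  classical
  obtain ⟨e1, he1, he1'⟩ := Multiset.mem_map.mp hu
  obtain ⟨e4, he4, he4'⟩ := ht
  -- two arcs out of `v`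
  have hf : 2 ≤ Multiset.card (s.filter (fun e => v = src e)) := by
    rwa [Multiset.count_map] at hv
  obtain ⟨e2, he2⟩ : ∃ e2, e2 ∈ s.filter (fun e => v = src e) := by
    apply Multiset.card_pos_iff_exists_mem.mp
    omega
  obtain ⟨q, hq⟩ := Multiset.exists_cons_of_mem he2
  obtain ⟨e3, he3⟩ : ∃ e3, e3 ∈ q := by
    apply Multiset.card_pos_iff_exists_mem.mp
    rw [hq, Multiset.card_cons] at hf
    omega
  obtain ⟨q', hq'⟩ := Multiset.exists_cons_of_mem he3
  have h23 : ({e2, e3} : Multiset Idx) ≤ s := by
    refine le_trans ?_ (Multiset.filter_le (fun e => v = src e) s)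
    rw [hq, hq']
    simp only [Multiset.insert_eq_cons]
    refine Multiset.cons_le_cons _ ?_
    rw [← Multiset.cons_zero]
    exact Multiset.cons_le_cons _ (Multiset.zero_le _)
  have hs2 : src e2 = v := by
    have := (Multiset.mem_filter.mp he2).2
    exact this.symm
  have hs3 : src e3 = v := by
    have : e3 ∈ s.filter (fun e => v = src e) := by
      rw [hq]; exact Multiset.mem_cons_of_mem he3
    exact ((Multiset.mem_filter.mp this).2).symm
  refine ⟨({e1} : Multiset Idx) ∪ ({e2, e3} ∪ {e4}), ?_, ?_, ?_, ?_, ?_⟩
  · refine Multiset.union_le (Multiset.singleton_le.mpr he1)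
      (Multiset.union_le h23 (Multiset.singleton_le.mpr he4))
  · have h1 := Multiset.card_le_card (Multiset.union_le_add ({e1} : Multiset Idx)
      ({e2, e3} ∪ {e4}))
    have h2 := Multiset.card_le_card (Multiset.union_le_add ({e2, e3} : Multiset Idx) {e4})
    simp only [Multiset.card_add, Multiset.card_singleton, Multiset.insert_eq_cons,
      Multiset.card_cons] at h1 h2
    simp only [Multiset.insert_eq_cons]
    omega
  · refine Multiset.mem_map.mpr ⟨e1, ?_, he1'⟩
    exact Multiset.mem_union.mpr (Or.inl (Multiset.mem_singleton_self _))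
  · have h1 : (({e2, e3} : Multiset Idx).map src).count v = 2 := by
      simp [hs2, hs3]
    have h2 : ({e2, e3} : Multiset Idx) ≤ ({e1} : Multiset Idx) ∪ ({e2, e3} ∪ {e4}) :=
      le_trans Multiset.le_union_left Multiset.le_union_right
    have h3 := Multiset.count_le_of_le v (Multiset.map_le_map (f := src) h2)
    omega
  · refine ⟨e4, ?_, he4'⟩
    refine Multiset.mem_union.mpr (Or.inr (Multiset.mem_union.mpr (Or.inr ?_)))
    exact Multiset.mem_singleton_self _

include hK in
/-- Step 1: we can adjust the in-degrees. -/
theorem step_one (N : ℕ) : ∀ (s t : Multiset Idx), W s = W t →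
    Multiset.card (s.map tgt - t.map tgt) = N →
    ∃ s', mon s - mon s' ∈ K ∧ W s' = W t ∧ s'.map tgt = t.map tgt := by
  classical
  induction N with
  | zero =>
    intro s t hW h0
    refine ⟨s, by simp, hW, ?_⟩
    have h1 : s.map tgt ≤ t.map tgt := by
      rw [Multiset.card_eq_zero] at h0
      exact tsub_eq_zero_iff_le.mp h0
    refine Multiset.eq_of_le_of_card_le h1 ?_
    rw [Multiset.card_map, Multiset.card_map, card_eq_of_W hW]
  | succ N ih =>
    intro s t hW hN
    have hc := card_eq_of_W hW
    obtain ⟨u, hu⟩ : ∃ u, u ∈ s.map tgt - t.map tgt := by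
      apply Multiset.card_pos_iff_exists_mem.mp
      omega
    have hu' : (t.map tgt).count u < (s.map tgt).count u := by
      have := Multiset.count_pos.mpr hu
      rw [Multiset.count_sub] at this
      omega
    obtain ⟨v, hv⟩ : ∃ v, (s.map tgt).count v < (t.map tgt).count v := by
      by_contra hcon
      push Not at hcon
      have h1 : t.map tgt ≤ s.map tgt := Multiset.le_iff_count.mpr hcon
      have h2 : t.map tgt = s.map tgt := Multiset.eq_of_le_of_card_le h1 (by
        rw [Multiset.card_map, Multiset.card_map, hc])
      rw [h2] at hu'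
      exact lt_irrefl _ hu'
    have huv : u ≠ v := by
      rintro rfl
      omega
    have hWu := congrArg (Multiset.count u) hW
    have hWv := congrArg (Multiset.count v) hW
    simp only [W, Multiset.count_add] at hWu hWv
    have htu := touch_le u t
    have hvsrc : 2 ≤ (s.map src).count v := by omega
    have hnt : ∃ e ∈ s, src e ≠ u ∧ tgt e ≠ u := by
      apply exists_not_touch
      omega
    have humem : u ∈ s.map tgt := Multiset.count_pos.mp (by omega)
    obtain ⟨n, hns, hn4, hnu, hnv, e, hen, heu1, heu2⟩ := choose_piece humem hvsrc hnt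
    obtain ⟨q, rfl⟩ := Multiset.le_iff_exists_add.mp hns
    have hnvle : ({v, v} : Multiset ℕ) ≤ n.map src := by
      rw [show ({v, v} : Multiset ℕ) = Multiset.replicate 2 v from rfl]
      exact Multiset.le_count_iff_replicate_le.mp hnv
    have hnule : ({u} : Multiset ℕ) ≤ n.map tgt := Multiset.singleton_le.mpr hnu
    have hcardn : 2 ≤ Multiset.card n := by
      have := Multiset.card_le_card hnvle
      simpa using this
    obtain ⟨A, hA⟩ := Multiset.le_iff_exists_add.mp hnvle
    obtain ⟨B, hB⟩ := Multiset.le_iff_exists_add.mp hnule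
    have hcA : Multiset.card n = 2 + Multiset.card A := by
      have := congrArg Multiset.card hA
      simp at this
      omega
    have hcB : Multiset.card n = 1 + Multiset.card B := by
      have := congrArg Multiset.card hB
      simp at this
      omega
    obtain ⟨n', hn'1, hn'2⟩ := realize (A + {u, u}) (B + {v}) (by
        simp; omega) (by
      intro w
      have h1 := touch_le w n
      rw [hA, hB] at h1
      simp only [Multiset.count_add, Multiset.card_add] at h1 ⊢
      have hcard2 : Multiset.card ({u, u} : Multiset ℕ) = 2 := rfl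
      rw [hcard2]
      by_cases hwu : w = u
      · subst hwu
        have h2 := touch_lt_of_mem hen heu1 heu2
        rw [hA, hB] at h2
        simp only [Multiset.count_add] at h2
        have h3 : Multiset.count w ({w, w} : Multiset ℕ) = 2 := by
          simp
        have h4 : Multiset.count w ({w} : Multiset ℕ) = 1 := by simp
        have h5 : Multiset.count w ({v} : Multiset ℕ) = 0 := by
          rw [Multiset.count_singleton, if_neg huv]
        omega
      · have h3 : Multiset.count w ({u, u} : Multiset ℕ) = 0 := by
          rw [Multiset.count_eq_zero]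
          simp [hwu]
        by_cases hwv : w = v
        · subst hwv
          have h4 : Multiset.count w ({w, w} : Multiset ℕ) = 2 := by simp
          have h5 : Multiset.count w ({w} : Multiset ℕ) = 1 := by simp
          omega
        · have h4 : Multiset.count w ({v} : Multiset ℕ) = 0 := by
            rw [Multiset.count_singleton, if_neg hwv]
          omega)
    have hWn : W n = W n' := by
      rw [W, W, hn'1, hn'2, hA, hB]
      ext w
      simp only [Multiset.count_add]
      have h1 : Multiset.count w ({u, u} : Multiset ℕ) = 2 * Multiset.count w ({u} : Multiset ℕ) := by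
        rw [show ({u, u} : Multiset ℕ) = {u} + {u} from rfl, Multiset.count_add]; ring
      have h2 : Multiset.count w ({v, v} : Multiset ℕ) = 2 * Multiset.count w ({v} : Multiset ℕ) := by
        rw [show ({v, v} : Multiset ℕ) = {v} + {v} from rfl, Multiset.count_add]; ring
      omega
    have hmv := move K hK (q := q) hn4 hWn
    have hW' : W (n' + q) = W t := by
      rw [← hW, W_add, W_add, hWn]
    have hN' : Multiset.card ((n' + q).map tgt - t.map tgt) = N := by
      have : (n' + q).map tgt - t.map tgt + {u} = (n + q).map tgt - t.map tgt := by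
        ext w
        rw [Multiset.count_add, Multiset.count_sub, Multiset.count_sub, Multiset.map_add,
          Multiset.map_add, Multiset.count_add, Multiset.count_add, hn'2, hB, Multiset.count_add,
          Multiset.count_add]
        rw [Multiset.map_add, Multiset.count_add, hB, Multiset.count_add] at hu' hv
        by_cases hwu : w = u
        · subst hwu
          have h4 : Multiset.count w ({w} : Multiset ℕ) = 1 := by simp
          have h5 : Multiset.count w ({v} : Multiset ℕ) = 0 := by
            rw [Multiset.count_singleton, if_neg huv]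
          omega
        · have h4 : Multiset.count w ({u} : Multiset ℕ) = 0 := by
            rw [Multiset.count_singleton, if_neg hwu]
          by_cases hwv : w = v
          · subst hwv
            have h5 : Multiset.count w ({w} : Multiset ℕ) = 1 := by simp
            omega
          · have h5 : Multiset.count w ({v} : Multiset ℕ) = 0 := by
              rw [Multiset.count_singleton, if_neg hwv]
            omega
      have h2 := congrArg Multiset.card this
      rw [hN, Multiset.card_add, Multiset.card_singleton] at h2
      omega
    obtain ⟨s', hs'1, hs'2, hs'3⟩ := ih (n' + q) t hW' hN'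
    exact ⟨s', rel_trans K hmv hs'1, hs'2, hs'3⟩

theorem mk_idx_eq {e : Idx} {i j : ℕ} (h1 : src e = i) (h2 : tgt e = j) :
    e.1 = (i, j) := Prod.ext h1 h2

include hK in
/-- Step 2: monomials with the same in- and out-degrees can be made to share an arc. -/
theorem step_two {s t : Multiset Idx} (h1 : s.map src = t.map src) (h2 : s.map tgt = t.map tgt)
    {e : Idx} (he : e ∈ t) :
    ∃ s', mon s - mon s' ∈ K ∧ W s' = W s ∧ e ∈ s' := by
  classical
  by_cases hes : e ∈ s
  · exact ⟨s, by simp, rfl, hes⟩
  have hij : src e ≠ tgt e := e.2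
  obtain ⟨e1, he1, he1'⟩ : ∃ e1 ∈ s, src e1 = src e := by
    have : src e ∈ s.map src := by rw [h1]; exact Multiset.mem_map_of_mem _ he
    simpa using Multiset.mem_map.mp this
  obtain ⟨q1, hq1⟩ := Multiset.exists_cons_of_mem he1
  obtain ⟨e2, he2, he2'⟩ : ∃ e2 ∈ s, tgt e2 = tgt e := by
    have : tgt e ∈ s.map tgt := by rw [h2]; exact Multiset.mem_map_of_mem _ he
    simpa using Multiset.mem_map.mp this
  have h12 : e2 ≠ e1 := by
    rintro rfl
    apply hes
    have : e2 = e := Subtype.ext (Prod.ext he1' he2')
    rwa [← this]
  have he2q : e2 ∈ q1 := by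
    rw [hq1] at he2
    rcases Multiset.mem_cons.mp he2 with h | h
    · exact absurd h h12
    · exact h
  obtain ⟨q2, hq2⟩ := Multiset.exists_cons_of_mem he2q
  have h1ne : src e1 ≠ tgt e1 := e1.2
  have h2ne : src e2 ≠ tgt e2 := e2.2
  by_cases hkl : src e2 = tgt e1
  · -- need a third arc
    have hlt : (s.map src).count (tgt e1) + (s.map tgt).count (tgt e1) < Multiset.card s := by
      have hc : Multiset.card s = Multiset.card t := by
        have := congrArg Multiset.card h1
        simpa using this
      rw [h1, h2, hc]
      refine touch_lt_of_mem he ?_ ?_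
      · rw [← he1']; exact h1ne
      · rw [← he2', ← hkl]; exact h2ne.symm
    obtain ⟨e3, he3, h31, h32⟩ := exists_not_touch hlt
    have he3q : e3 ∈ q2 := by
      rw [hq1, hq2] at he3
      rcases Multiset.mem_cons.mp he3 with h | h
      · exact absurd (h ▸ rfl) h32
      rcases Multiset.mem_cons.mp h with h | h
      · exact absurd (h ▸ hkl) h31
      · exact h
    obtain ⟨q3, hq3⟩ := Multiset.exists_cons_of_mem he3q
    let a : Idx := ⟨(tgt e1, tgt e3), fun h => h32 h.symm⟩
    let b : Idx := ⟨(src e3, tgt e1), h31⟩
    refine ⟨({e, a, b} : Multiset Idx) + q3, ?_, ?_, ?_⟩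
    · have hs : s = ({e1, e2, e3} : Multiset Idx) + q3 := by
        rw [hq1, hq2, hq3]; simp [Multiset.insert_eq_cons, Multiset.cons_add, Multiset.singleton_add]
      rw [hs]
      refine move K hK (by simp) ?_
      ext w
      simp only [W, Multiset.insert_eq_cons, Multiset.map_cons, Multiset.map_singleton,
        Multiset.count_add, Multiset.count_cons, Multiset.count_singleton]
      have ha1 : src a = tgt e1 := rfl
      have ha2 : tgt a = tgt e3 := rfl
      have hb1 : src b = src e3 := rfl
      have hb2 : tgt b = tgt e1 := rfl
      rw [ha1, ha2, hb1, hb2, he1', he2', hkl]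
      omega
    · have hs : s = ({e1, e2, e3} : Multiset Idx) + q3 := by
        rw [hq1, hq2, hq3]; simp [Multiset.insert_eq_cons, Multiset.cons_add, Multiset.singleton_add]
      rw [hs, W_add, W_add]
      congr 1
      ext w
      simp only [W, Multiset.insert_eq_cons, Multiset.map_cons, Multiset.map_singleton,
        Multiset.count_add, Multiset.count_cons, Multiset.count_singleton]
      have ha1 : src a = tgt e1 := rfl
      have ha2 : tgt a = tgt e3 := rfl
      have hb1 : src b = src e3 := rfl
      have hb2 : tgt b = tgt e1 := rfl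
      rw [ha1, ha2, hb1, hb2, he1', he2', hkl]
      omega
    · simp
  · let a : Idx := ⟨(src e2, tgt e1), hkl⟩
    have ha1 : src a = src e2 := rfl
    have ha2 : tgt a = tgt e1 := rfl
    have hs : s = ({e1, e2} : Multiset Idx) + q2 := by
      rw [hq1, hq2]; simp [Multiset.insert_eq_cons, Multiset.cons_add, Multiset.singleton_add]
    have hWW : W ({e1, e2} : Multiset Idx) = W ({e, a} : Multiset Idx) := by
      ext w
      simp only [W, Multiset.insert_eq_cons, Multiset.map_cons, Multiset.map_singleton,
        Multiset.count_add, Multiset.count_cons, Multiset.count_singleton]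
      rw [ha1, ha2, he1', he2']
      omega
    refine ⟨({e, a} : Multiset Idx) + q2, ?_, ?_, ?_⟩
    · rw [hs]
      exact move K hK (by simp) hWW
    · rw [hs, W_add, W_add, hWW]
    · simp

theorem src_eq_of {s t : Multiset Idx} (hW : W s = W t) (h : s.map tgt = t.map tgt) :
    s.map src = t.map src := by
  rw [W, W, h] at hW
  exact add_right_cancel hW

include hK in
/-- Any two monomials with the same image are equivalent modulo `K`. -/
theorem connected (k : ℕ) : ∀ (s t : Multiset Idx), Multiset.card t = k → W s = W t →
    mon s - mon t ∈ K := by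
  classical
  induction k with
  | zero =>
    intro s t ht hW
    have hs := card_eq_of_W hW
    exact hK s t (by omega) hW
  | succ k ih =>
    intro s t ht hW
    obtain ⟨s1, h1, h2, h3⟩ := step_one K hK _ s t hW rfl
    have h4 := src_eq_of h2 h3
    obtain ⟨e, he⟩ : ∃ e, e ∈ t := by
      apply Multiset.card_pos_iff_exists_mem.mp
      omega
    obtain ⟨s2, h5, h6, h7⟩ := step_two K hK h4 h3 he
    obtain ⟨q, hq⟩ := Multiset.exists_cons_of_mem h7
    obtain ⟨r, hr⟩ := Multiset.exists_cons_of_mem he
    have hWq : W q = W r := by
      have h8 : W s2 = W t := h6.trans h2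
      rw [hq, hr, ← Multiset.singleton_add, ← Multiset.singleton_add, W_add, W_add] at h8
      exact add_left_cancel h8
    have hcr : Multiset.card r = k := by
      rw [hr, Multiset.card_cons] at ht
      omega
    have h9 := rel_cons K e (ih q r hcr hWq)
    rw [← hq, ← hr] at h9
    exact rel_trans K (rel_trans K h1 h5) h9

end

end Pool.Agent.H503R3.EGB
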