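import Pool.Agent.H503R3.EGB.FG

/-!
# A monomial order respecting the monoid of increasing maps

Monomials are compared first by the number of arcs `i → j` with `i < j`, then by the multiset of
left endpoints `min i j` (largest index most significant), then lexicographically.
-/

set_option autoImplicit false

namespace Pool.Agent.H503R3.EGB

open OrderDual

/-- keys of variables -/
abbrev KK : Type := ℕ ×ₗ (ℕ ×ₗ ℕ)

/-- values -/
abbrev Syn : Type := ℕ ×ₗ (Lex (ℕᵒᵈ →₀ ℕ) ×ₗ Lex (KKᵒᵈ →₀ ℕ))

/-- left endpoint -/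
def lft (e : Idx) : ℕ := min (src e) (tgt e)

/-- the key of a variable: largest endpoint, then difference of the endpoints, then direction -/
def key (e : Idx) : KK :=
  toLex (max (src e) (tgt e), toLex (max (src e) (tgt e) - min (src e) (tgt e),
    if src e < tgt e then 0 else 1))

/-- number of ascending arcs -/
def v1 (s : Multiset Idx) : ℕ := s.countP fun e => src e < tgt e

/-- left endpoints -/
noncomputable def v2 (s : Multiset Idx) : ℕᵒᵈ →₀ ℕ :=
  Multiset.toFinsupp (s.map fun e => toDual (lft e))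

/-- the exponents, sorted by key -/
noncomputable def v3 (s : Multiset Idx) : KKᵒᵈ →₀ ℕ :=
  Multiset.toFinsupp (s.map fun e => toDual (key e))

/-- the value of a monomial -/
noncomputable def syn (s : Multiset Idx) : Syn :=
  toLex (v1 s, toLex (toLex (v2 s), toLex (v3 s)))

/-- the order -/
def le0 (a b : Idx →₀ ℕ) : Prop := syn (Finsupp.toMultiset a) ≤ syn (Finsupp.toMultiset b)

theorem syn_add (s t : Multiset Idx) : syn (s + t) = syn s + syn t := by
  have h1 : v1 (s + t) = v1 s + v1 t := Multiset.countP_add _ _ _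
  have h2 : v2 (s + t) = v2 s + v2 t := by
    rw [v2, Multiset.map_add, map_add]; rfl
  have h3 : v3 (s + t) = v3 s + v3 t := by
    rw [v3, Multiset.map_add, map_add]; rfl
  rw [syn, h1, h2, h3]
  rfl

theorem key_injective : Function.Injective key := by
  rintro ⟨⟨a, b⟩, h⟩ ⟨⟨c, d⟩, h'⟩ hk
  simp only [key, src, tgt, toLex_inj, Prod.mk.injEq] at hk
  obtain ⟨h1, h2, h3⟩ := hk
  simp only [ne_eq] at h h'
  apply Subtype.ext
  simp only [Prod.mk.injEq]
  by_cases hab : a < b <;> by_cases hcd : c < d
  · rw [max_eq_right hab.le, max_eq_right hcd.le] at h1 h2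
    rw [min_eq_left hab.le, min_eq_left hcd.le] at h2
    omega
  · simp [hab, hcd] at h3
  · simp [hab, hcd] at h3
  · have hab' : b < a := by omega
    have hcd' : d < c := by omega
    rw [max_eq_left hab'.le, max_eq_left hcd'.le] at h1 h2
    rw [min_eq_right hab'.le, min_eq_right hcd'.le] at h2
    omega

theorem syn_injective : Function.Injective syn := by
  intro s t h
  rw [syn, syn, toLex_inj, Prod.mk.injEq, toLex_inj, Prod.mk.injEq, toLex_inj, v3, v3] at h
  have h3 := h.2.2
  have h4 := Multiset.toFinsupp.injective h3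
  exact Multiset.map_injective (fun a b hab => key_injective (toDual_inj.mp hab)) h4

theorem isMonomialOrder_le0 : IsMonomialOrder le0 where
  total a b := le_total _ _
  antisymm a b h1 h2 := by
    have := syn_injective (le_antisymm h1 h2)
    have h3 := congrArg Multiset.toFinsupp this
    rwa [Finsupp.toMultiset_toFinsupp, Finsupp.toMultiset_toFinsupp] at h3
  trans a b c h1 h2 := le_trans h1 h2
  exists_min S hS := by
    let g : (Idx →₀ ℕ) → Syn := fun a => syn (Finsupp.toMultiset a)
    have hwf : WellFounded (InvImage (· < · : Syn → Syn → Prop) g) :=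
      InvImage.wf g (wellFounded_lt)
    obtain ⟨a, ha, hmin⟩ := hwf.has_min S hS
    exact ⟨a, ha, fun b hb => not_lt.mp (hmin b hb)⟩
  mul a b c h := by
    change syn _ ≤ syn _
    rw [map_add, map_add, syn_add, syn_add]
    exact add_le_add_left h _

theorem lex_lt_map {α β γ : Type} [LinearOrder α] [LinearOrder β] [DecidableEq γ] (κ : γ → α)
    (κ' : γ → β) (h : ∀ a b, κ a < κ b ↔ κ' a < κ' b) {u v : Multiset γ}
    (huv : toLex (Multiset.toFinsupp (u.map κ)) < toLex (Multiset.toFinsupp (v.map κ))) :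
    toLex (Multiset.toFinsupp (u.map κ')) < toLex (Multiset.toFinsupp (v.map κ')) := by
  have heq : ∀ a b, κ a = κ b ↔ κ' a = κ' b := by
    intro a b
    constructor
    · intro hab
      refine le_antisymm (not_lt.mp fun hlt => ?_) (not_lt.mp fun hlt => ?_)
      · exact absurd ((h b a).mpr hlt) (by rw [hab]; exact lt_irrefl _)
      · exact absurd ((h a b).mpr hlt) (by rw [hab]; exact lt_irrefl _)
    · intro hab
      refine le_antisymm (not_lt.mp fun hlt => ?_) (not_lt.mp fun hlt => ?_)
      · exact absurd ((h b a).mp hlt) (by rw [hab]; exact lt_irrefl _)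
      · exact absurd ((h a b).mp hlt) (by rw [hab]; exact lt_irrefl _)
  have hcount : ∀ (w : Multiset γ) (a : γ), (w.map κ).count (κ a) = (w.map κ').count (κ' a) := by
    intro w a
    rw [Multiset.count_map, Multiset.count_map]
    congr 1
    refine Multiset.filter_congr fun b _ => ?_
    exact heq a b
  rw [Finsupp.Lex.lt_iff] at huv ⊢
  obtain ⟨i, hi1, hi2⟩ := huv
  simp only [ofLex_toLex, Multiset.toFinsupp_apply] at hi1 hi2 ⊢
  obtain ⟨a, ha, rfl⟩ : ∃ a ∈ v, κ a = i := by
    have : 0 < (v.map κ).count i := by omega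
    simpa using Multiset.mem_map.mp (Multiset.count_pos.mp this)
  refine ⟨κ' a, ?_, ?_⟩
  · intro j hj
    by_cases hju : j ∈ u.map κ'
    · obtain ⟨b, hb, rfl⟩ := Multiset.mem_map.mp hju
      rw [← hcount, ← hcount]
      exact hi1 _ ((h _ _).mpr hj)
    · by_cases hjv : j ∈ v.map κ'
      · obtain ⟨b, hb, rfl⟩ := Multiset.mem_map.mp hjv
        rw [← hcount, ← hcount]
        exact hi1 _ ((h _ _).mpr hj)
      · rw [Multiset.count_eq_zero.mpr hju, Multiset.count_eq_zero.mpr hjv]
  · rw [← hcount, ← hcount]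
    exact hi2

theorem src_mapIdx (ρ : ℕ → ℕ) (hρ : Function.Injective ρ) (e : Idx) :
    src (mapIdx ρ hρ e) = ρ (src e) := rfl

theorem tgt_mapIdx (ρ : ℕ → ℕ) (hρ : Function.Injective ρ) (e : Idx) :
    tgt (mapIdx ρ hρ e) = ρ (tgt e) := rfl

theorem key_lt_iff (ρ : ℕ → ℕ) (hρ : StrictMono ρ) (a b : Idx) :
    key a < key b ↔ key (mapIdx ρ hρ.injective a) < key (mapIdx ρ hρ.injective b) := by
  have hmax : ∀ c : Idx, max (ρ (src c)) (ρ (tgt c)) = ρ (max (src c) (tgt c)) := fun c =>
    (hρ.monotone.map_max).symm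
  have hmin : ∀ c : Idx, min (ρ (src c)) (ρ (tgt c)) = ρ (min (src c) (tgt c)) := fun c =>
    (hρ.monotone.map_min).symm
  simp only [key, src_mapIdx, tgt_mapIdx, hmax, hmin, Prod.Lex.lt_iff, ofLex_toLex, hρ.lt_iff_lt,
    hρ.injective.eq_iff]
  have h1 : min (src a) (tgt a) ≤ max (src a) (tgt a) := min_le_max
  have h2 : min (src b) (tgt b) ≤ max (src b) (tgt b) := min_le_max
  have h1' := hρ.monotone h1
  have h2' := hρ.monotone h2
  constructor
  · rintro (h | ⟨h3, h4⟩)
    · exact Or.inl h
    · refine Or.inr ⟨h3, ?_⟩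
      rw [h3] at h4 ⊢
      rcases h4 with h4 | ⟨h4, h5⟩
      · left
        have h6 : min (src b) (tgt b) < min (src a) (tgt a) := by omega
        have h7 := hρ h6
        have h8 : ρ (min (src a) (tgt a)) ≤ ρ (max (src b) (tgt b)) := by rw [← h3]; exact h1'
        omega
      · right
        have h6 : min (src b) (tgt b) = min (src a) (tgt a) := by omega
        exact ⟨by rw [h6], h5⟩
  · rintro (h | ⟨h3, h4⟩)
    · exact Or.inl h
    · refine Or.inr ⟨h3, ?_⟩
      rw [h3] at h4 ⊢
      rcases h4 with h4 | ⟨h4, h5⟩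
      · left
        have h6 : ρ (min (src b) (tgt b)) < ρ (min (src a) (tgt a)) := by omega
        have h7 := hρ.lt_iff_lt.mp h6
        omega
      · right
        have h8 : ρ (min (src a) (tgt a)) ≤ ρ (max (src b) (tgt b)) := by rw [← h3]; exact h1'
        have h6 : ρ (min (src b) (tgt b)) = ρ (min (src a) (tgt a)) := by omega
        have h7 := hρ.injective h6
        exact ⟨by rw [h7], h5⟩

theorem toMultiset_actMon (ρ : ℕ → ℕ) (hρ : Function.Injective ρ) (a : Idx →₀ ℕ) :
    Finsupp.toMultiset (actMon ρ hρ a) = (Finsupp.toMultiset a).map (mapIdx ρ hρ) := by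
  rw [actMon, Finsupp.toMultiset_map]

theorem respects_le0 : RespectsInc le0 := by
  intro ρ hρ a b hab
  change syn _ ≤ syn _
  rw [toMultiset_actMon, toMultiset_actMon]
  change syn _ ≤ syn _ at hab
  set s := Finsupp.toMultiset a
  set t := Finsupp.toMultiset b
  rcases hab.lt_or_eq with hlt | heq
  · refine le_of_lt ?_
    have h1 : ∀ u : Multiset Idx, v1 (u.map (mapIdx ρ hρ.injective)) = v1 u := by
      intro u
      rw [v1, v1, Multiset.countP_map, Multiset.countP_eq_card_filter]
      congr 1
      refine Multiset.filter_congr fun e _ => ?_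
      rw [src_mapIdx, tgt_mapIdx, hρ.lt_iff_lt]
    have h2 : ∀ u : Multiset Idx, v2 (u.map (mapIdx ρ hρ.injective)) =
        Multiset.toFinsupp (u.map fun e => toDual (ρ (lft e))) := by
      intro u
      rw [v2, Multiset.map_map]
      congr 1
      refine Multiset.map_congr rfl fun e _ => ?_
      simp only [Function.comp_apply, lft, src_mapIdx, tgt_mapIdx]
      rw [hρ.monotone.map_min]
    have h3 : ∀ u : Multiset Idx, v3 (u.map (mapIdx ρ hρ.injective)) =
        Multiset.toFinsupp (u.map fun e => toDual (key (mapIdx ρ hρ.injective e))) := by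
      intro u
      rw [v3, Multiset.map_map]
      rfl
    have k2 : ∀ u v : Multiset Idx, toLex (v2 u) < toLex (v2 v) →
        toLex (v2 (u.map (mapIdx ρ hρ.injective))) < toLex (v2 (v.map (mapIdx ρ hρ.injective))) := by
      intro u v huv
      rw [h2, h2]
      refine lex_lt_map (fun e => toDual (lft e)) (fun e => toDual (ρ (lft e))) ?_ huv
      intro c d
      rw [toDual_lt_toDual, toDual_lt_toDual, hρ.lt_iff_lt]
    have k3 : ∀ u v : Multiset Idx, toLex (v3 u) < toLex (v3 v) →
        toLex (v3 (u.map (mapIdx ρ hρ.injective))) < toLex (v3 (v.map (mapIdx ρ hρ.injective))) := by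
      intro u v huv
      rw [h3, h3]
      refine lex_lt_map (fun e => toDual (key e))
        (fun e => toDual (key (mapIdx ρ hρ.injective e))) ?_ huv
      intro c d
      rw [toDual_lt_toDual, toDual_lt_toDual]
      exact key_lt_iff ρ hρ d c
    have e2 : ∀ u v : Multiset Idx, toLex (v2 u) = toLex (v2 v) →
        toLex (v2 (u.map (mapIdx ρ hρ.injective))) = toLex (v2 (v.map (mapIdx ρ hρ.injective))) := by
      intro u v huv
      rw [h2, h2]
      rw [toLex_inj] at huv ⊢
      have := Multiset.toFinsupp.injective huv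
      congr 1
      have h5 := congrArg (Multiset.map (fun x : ℕᵒᵈ => toDual (ρ (ofDual x)))) this
      rw [Multiset.map_map, Multiset.map_map] at h5
      exact h5
    rw [syn, syn, Prod.Lex.lt_iff] at hlt ⊢
    simp only [ofLex_toLex] at hlt ⊢
    rw [h1, h1]
    rcases hlt with hlt | ⟨heq, hlt⟩
    · exact Or.inl hlt
    refine Or.inr ⟨heq, ?_⟩
    rw [Prod.Lex.lt_iff] at hlt ⊢
    simp only [ofLex_toLex] at hlt ⊢
    rcases hlt with hlt | ⟨heq', hlt⟩
    · exact Or.inl (k2 _ _ hlt)
    · exact Or.inr ⟨e2 _ _ heq', k3 _ _ hlt⟩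
  · rw [syn_injective heq]

end Pool.Agent.H503R3.EGB
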